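import Pool.Agent.Helper41.FewOps.Daug

namespace Pool.Agent.Results.MP_b2bd43_an.NotHilbert

open Pool.Agent.Helper41.FewOps

section Defs

variable {X : Type} [NormedAddCommGroup X] [NormedSpace ℝ X]

/-- The set `Π(X)` of pairs `(x, f)` of norm-one vectors and norm-one functionals with
`f x = 1`. -/
def Pairs (X : Type) [NormedAddCommGroup X] [NormedSpace ℝ X] : Set (X × (X →L[ℝ] ℝ)) :=
  {p | ‖p.1‖ = 1 ∧ ‖p.2‖ = 1 ∧ p.2 p.1 = 1}

/-- The numerical radius `v(T)`. -/
noncomputable def numRadius (T : X →L[ℝ] X) : ℝ :=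
  sSup ((fun p : X × (X →L[ℝ] ℝ) => |p.2 (T p.1)|) '' Pairs X)

/-- The numerical index `n(X)`. -/
noncomputable def numIndex (X : Type) [NormedAddCommGroup X] [NormedSpace ℝ X] : ℝ :=
  sInf (numRadius '' {T : X →L[ℝ] X | ‖T‖ = 1})

/-- The skew-hermitian operators `Z(X)`. -/
def skew (X : Type) [NormedAddCommGroup X] [NormedSpace ℝ X] : Set (X →L[ℝ] X) :=
  {S | numRadius S = 0}

/-- The quotient norm `‖T + Z(X)‖`. -/
noncomputable def quotNorm (T : X →L[ℝ] X) : ℝ := sInf ((fun S => ‖T + S‖) '' skew X)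

/-- The second numerical index `n'(X)`. -/
noncomputable def secondIndex (X : Type) [NormedAddCommGroup X] [NormedSpace ℝ X] : ℝ :=
  sInf (numRadius '' {T : X →L[ℝ] X | quotNorm T = 1})

/-- The norm of `X` is induced by an inner product. -/
def IsHilbert (X : Type) [NormedAddCommGroup X] [NormedSpace ℝ X] : Prop :=
  ∃ B : X →ₗ[ℝ] X →ₗ[ℝ] ℝ, (∀ x y, B x y = B y x) ∧ ∀ x, ‖x‖ ^ 2 = B x x

lemma le_numRadius (T : X →L[ℝ] X) {p : X × (X →L[ℝ] ℝ)} (hp : p ∈ Pairs X) :
    |p.2 (T p.1)| ≤ numRadius T := by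
  refine le_csSup ⟨‖T‖, ?_⟩ ⟨p, hp, rfl⟩
  rintro _ ⟨q, hq, rfl⟩
  have h1 := q.2.le_opNorm (T q.1)
  have h2 := T.le_opNorm q.1
  rw [hq.1, mul_one] at h2
  rw [hq.2.1, one_mul] at h1
  exact h1.trans h2

lemma numRadius_nonneg (T : X →L[ℝ] X) : 0 ≤ numRadius T := by
  apply Real.sSup_nonneg
  rintro _ ⟨q, _, rfl⟩
  exact abs_nonneg _

lemma numRadius_eq_zero {T : X →L[ℝ] X} (h : ∀ p ∈ Pairs X, p.2 (T p.1) = 0) :
    numRadius T = 0 := by
  refine le_antisymm ?_ (numRadius_nonneg T)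
  apply Real.sSup_le _ le_rfl
  rintro _ ⟨q, hq, rfl⟩
  simp only
  rw [h q hq, abs_zero]

lemma exists_pair [Nontrivial X] {x : X} (hx : ‖x‖ = 1) : ∃ f : X →L[ℝ] ℝ, (x, f) ∈ Pairs X := by
  obtain ⟨f, hf, hfx⟩ := exists_dual_vector' ℝ x
  exact ⟨f, hx, hf, by rw [hfx, hx]; rfl⟩

/-- A lower bound for the numerical range from lower bounds for `‖1 + t T‖`. -/
lemma le_of_norm_le [Nontrivial X] {T : X →L[ℝ] X} {v c : ℝ}
    (hv : ∀ p ∈ Pairs X, p.2 (T p.1) ≤ v)
    (hc : ∀ t : ℝ, 0 < t → 1 + t * c ≤ ‖ContinuousLinearMap.id ℝ X + t • T‖) : c ≤ v := by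
  have low : ∀ t : ℝ, 0 < t → ∀ x : X, (1 - t * v) * ‖x‖ ≤ ‖x - t • T x‖ := by
    intro t ht x
    by_cases hx : x = 0
    · simp [hx]
    · have hn : ‖x‖ ≠ 0 := norm_ne_zero_iff.2 hx
      have hy : ‖(‖x‖⁻¹ • x)‖ = 1 := by
        rw [norm_smul, norm_inv, norm_norm, inv_mul_cancel₀ hn]
      obtain ⟨f, hf⟩ := exists_pair hy
      have h1 := hv _ hf
      have h2 : f (‖x‖⁻¹ • x - t • T (‖x‖⁻¹ • x)) ≤ ‖‖x‖⁻¹ • x - t • T (‖x‖⁻¹ • x)‖ := by
        refine (le_abs_self _).trans ?_
        have := f.le_opNorm (‖x‖⁻¹ • x - t • T (‖x‖⁻¹ • x))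
        rwa [hf.2.1, one_mul] at this
      have h3 : f (‖x‖⁻¹ • x) = 1 := hf.2.2
      rw [map_sub, h3, map_smul, smul_eq_mul] at h2
      have h4 : ‖x‖⁻¹ • x - t • T (‖x‖⁻¹ • x) = ‖x‖⁻¹ • (x - t • T x) := by
        rw [map_smul, smul_sub, smul_comm]
      rw [h4, norm_smul, norm_inv, norm_norm] at h2
      have h5 : t * f (T (‖x‖⁻¹ • x)) ≤ t * v := mul_le_mul_of_nonneg_left h1 ht.le
      rw [inv_mul_eq_div, le_div_iff₀ (norm_pos_iff.2 hx)] at h2
      refine le_trans (mul_le_mul_of_nonneg_right ?_ (norm_nonneg x)) h2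
      linarith
  have main : ∀ t : ℝ, 0 < t → t * v < 1 → (1 + t * c) * (1 - t * v) ≤ 1 + t ^ 2 * ‖T‖ ^ 2 := by
    intro t ht htv
    have hpos : 0 < 1 - t * v := by linarith
    have h1 : ‖ContinuousLinearMap.id ℝ X + t • T‖ ≤ (1 + t ^ 2 * ‖T‖ ^ 2) / (1 - t * v) := by
      refine ContinuousLinearMap.opNorm_le_bound _ (by positivity) fun x => ?_
      rw [div_mul_eq_mul_div, le_div_iff₀ hpos]
      have h2 := low t ht ((ContinuousLinearMap.id ℝ X + t • T) x)
      have h3 : (ContinuousLinearMap.id ℝ X + t • T) x - t • T ((ContinuousLinearMap.id ℝ X +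
          t • T) x) = x - (t ^ 2) • T (T x) := by
        simp only [ContinuousLinearMap.add_apply, ContinuousLinearMap.id_apply,
          ContinuousLinearMap.smul_apply, map_add, map_smul, smul_add, smul_smul]
        rw [pow_two]
        abel
      rw [h3] at h2
      have h4 : ‖x - (t ^ 2) • T (T x)‖ ≤ (1 + t ^ 2 * ‖T‖ ^ 2) * ‖x‖ := by
        have h5 := norm_sub_le x ((t ^ 2) • T (T x))
        have h6 : ‖(t ^ 2) • T (T x)‖ ≤ t ^ 2 * ‖T‖ ^ 2 * ‖x‖ := by
          rw [norm_smul, Real.norm_of_nonneg (by positivity)]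
          have h7 : ‖T (T x)‖ ≤ ‖T‖ ^ 2 * ‖x‖ := by
            calc ‖T (T x)‖ ≤ ‖T‖ * ‖T x‖ := T.le_opNorm _
              _ ≤ ‖T‖ * (‖T‖ * ‖x‖) := mul_le_mul_of_nonneg_left (T.le_opNorm _) (norm_nonneg _)
              _ = _ := by ring
          calc t ^ 2 * ‖T (T x)‖ ≤ t ^ 2 * (‖T‖ ^ 2 * ‖x‖) :=
                mul_le_mul_of_nonneg_left h7 (by positivity)
            _ = _ := by ring
        linarith
      linarith
    rw [le_div_iff₀ hpos] at h1
    exact (mul_le_mul_of_nonneg_right (hc t ht) hpos.le).trans h1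
  by_contra hcon
  push Not at hcon
  set K := ‖T‖ ^ 2 + |c * v| + 1 with hK
  have hKpos : 0 < K := by positivity
  set t := min (1 / (2 * (|v| + 1))) ((c - v) / (2 * K)) with ht
  have htpos : 0 < t := lt_min (by positivity) (by have : 0 < c - v := by linarith
                                                   positivity)
  have htv : t * v < 1 := by
    have h1 : t ≤ 1 / (2 * (|v| + 1)) := min_le_left _ _
    have h2 : t * v ≤ t * |v| := mul_le_mul_of_nonneg_left (le_abs_self v) htpos.le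
    have h3 : t * |v| ≤ 1 / (2 * (|v| + 1)) * |v| :=
      mul_le_mul_of_nonneg_right h1 (abs_nonneg v)
    have h4 : 1 / (2 * (|v| + 1)) * |v| < 1 := by
      rw [one_div, inv_mul_eq_div, div_lt_one (by positivity)]
      have := abs_nonneg v
      linarith
    linarith
  have h1 := main t htpos htv
  have h2 : t * K ≤ (c - v) / 2 := by
    have h3 : t ≤ (c - v) / (2 * K) := min_le_right _ _
    calc t * K ≤ (c - v) / (2 * K) * K := mul_le_mul_of_nonneg_right h3 hKpos.le
      _ = (c - v) / 2 := by field_simp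
  have h3 : t * (c - v) ≤ t * (t * (‖T‖ ^ 2 + c * v)) := by nlinarith
  have h4 : c - v ≤ t * (‖T‖ ^ 2 + c * v) := le_of_mul_le_mul_left h3 htpos
  have h5 : t * (‖T‖ ^ 2 + c * v) ≤ t * K := by
    apply mul_le_mul_of_nonneg_left _ htpos.le
    rw [hK]
    have := le_abs_self (c * v)
    linarith
  linarith

/-- The abstract criterion. -/
theorem criterion [Nontrivial X] (J : X →L[ℝ] X)
    (hJ : ∀ (t : ℝ) (x : X), ‖x + t • J x‖ = Real.sqrt (1 + t ^ 2) * ‖x‖)
    (hJ1 : ∀ x, ‖J x‖ = ‖x‖)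
    (h : ∀ T : X →L[ℝ] X, ∃ (a b : ℝ) (S : X →L[ℝ] X), (∀ x, T x = a • x + b • J x + S x) ∧
      ∀ t α : ℝ, 0 ≤ α → α + |t| * ‖S‖ ≤ ‖α • ContinuousLinearMap.id ℝ X + t • S‖) :
    numIndex X = 0 ∧ secondIndex X = 1 := by
  -- the pairing with `J` vanishes
  have hJ0 : ∀ p ∈ Pairs X, p.2 (J p.1) = 0 := by
    intro p hp
    have h1 : ∀ t : ℝ, (1 + t * p.2 (J p.1)) ^ 2 ≤ 1 + t ^ 2 := by
      intro t
      have h2 := p.2.le_opNorm (p.1 + t • J p.1)
      rw [hp.2.1, one_mul, hJ, hp.1, mul_one, map_add, hp.2.2, map_smul, smul_eq_mul,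
        Real.norm_eq_abs] at h2
      have h3 := abs_le_abs_of_nonneg (abs_nonneg _) h2
      have h4 := sq_le_sq.2 h3
      rw [sq_abs, Real.sq_sqrt (by positivity)] at h4
      exact h4
    set d := p.2 (J p.1) with hd
    by_contra hne
    have h2 := h1 (d / (1 + d ^ 2))
    have hpos : 0 < 1 + d ^ 2 := by positivity
    have h3 : (1 + d / (1 + d ^ 2) * d) ^ 2 = (1 + 2 * d ^ 2) ^ 2 / (1 + d ^ 2) ^ 2 := by
      field_simp
      ring
    have h4 : 1 + (d / (1 + d ^ 2)) ^ 2 = ((1 + d ^ 2) ^ 2 + d ^ 2) / (1 + d ^ 2) ^ 2 := by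
      field_simp
    rw [h3, h4, div_le_div_iff_of_pos_right (by positivity)] at h2
    have h5 : 0 < d ^ 2 := by positivity
    nlinarith
  have hJrad : ∀ b : ℝ, numRadius (b • J) = 0 := by
    intro b
    apply numRadius_eq_zero
    intro p hp
    rw [ContinuousLinearMap.smul_apply, map_smul, hJ0 p hp, smul_zero]
  -- the main inequality
  have main : ∀ T : X →L[ℝ] X, quotNorm T ≤ numRadius T := by
    intro T
    obtain ⟨a, b, S, hT, hS⟩ := h T
    have e : T + (-b) • J = a • ContinuousLinearMap.id ℝ X + S := by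
      ext x
      simp only [ContinuousLinearMap.add_apply, ContinuousLinearMap.smul_apply, hT x,
        ContinuousLinearMap.id_apply]
      rw [neg_smul]
      abel
    have h1 : quotNorm T ≤ |a| + ‖S‖ := by
      have h2 : quotNorm T ≤ ‖T + (-b) • J‖ := by
        refine csInf_le ⟨0, ?_⟩ ⟨(-b) • J, hJrad _, rfl⟩
        rintro _ ⟨S, _, rfl⟩
        exact norm_nonneg _
      rw [e] at h2
      refine h2.trans ((norm_add_le _ _).trans ?_)
      rw [norm_smul, Real.norm_eq_abs]
      have := ContinuousLinearMap.norm_id_le (𝕜 := ℝ) (E := X)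
      have h3 : |a| * ‖ContinuousLinearMap.id ℝ X‖ ≤ |a| * 1 :=
        mul_le_mul_of_nonneg_left this (abs_nonneg a)
      linarith
    refine h1.trans ?_
    have hpair : ∀ p ∈ Pairs X, p.2 ((a • ContinuousLinearMap.id ℝ X + S) p.1) = p.2 (T p.1) := by
      intro p hp
      rw [← e, ContinuousLinearMap.add_apply, map_add, ContinuousLinearMap.smul_apply, map_smul,
        hJ0 p hp, smul_zero, add_zero]
    rcases le_or_gt 0 a with ha | ha
    · rw [abs_of_nonneg ha]
      apply le_of_norm_le (T := a • ContinuousLinearMap.id ℝ X + S)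
      · intro p hp
        rw [hpair p hp]
        exact (le_abs_self _).trans (le_numRadius T hp)
      · intro t ht
        have h2 := hS t (1 + t * a) (by positivity)
        have h3 : ContinuousLinearMap.id ℝ X + t • (a • ContinuousLinearMap.id ℝ X + S) =
            (1 + t * a) • ContinuousLinearMap.id ℝ X + t • S := by
          rw [smul_add, smul_smul, add_smul, one_smul, add_assoc]
        rw [h3]
        rw [abs_of_pos ht] at h2
        linarith
    · rw [abs_of_neg ha]
      apply le_of_norm_le (T := -(a • ContinuousLinearMap.id ℝ X + S))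
      · intro p hp
        rw [ContinuousLinearMap.neg_apply, map_neg, hpair p hp]
        exact (neg_le_abs _).trans (le_numRadius T hp)
      · intro t ht
        have h2 := hS (-t) (1 + t * (-a)) (by have : 0 < -a := by linarith
                                              positivity)
        have h3 : ContinuousLinearMap.id ℝ X + t • -(a • ContinuousLinearMap.id ℝ X + S) =
            (1 + t * (-a)) • ContinuousLinearMap.id ℝ X + (-t) • S := by
          rw [smul_neg, smul_add, smul_smul, add_smul, one_smul, neg_smul, mul_neg, neg_smul]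
          abel
        rw [h3]
        rw [abs_neg, abs_of_pos ht] at h2
        linarith
  obtain ⟨x, hx⟩ := exists_ne (0 : X)
  have hy : ‖(‖x‖⁻¹ • x)‖ = 1 := by
    rw [norm_smul, norm_inv, norm_norm, inv_mul_cancel₀ (norm_ne_zero_iff.2 hx)]
  obtain ⟨f, hf⟩ := exists_pair hy
  constructor
  · apply le_antisymm
    · refine csInf_le ⟨0, ?_⟩ ⟨J, ?_, ?_⟩
      · rintro _ ⟨T, _, rfl⟩
        exact numRadius_nonneg T
      · show ‖J‖ = 1
        apply le_antisymm
        · exact J.opNorm_le_bound zero_le_one fun x => by rw [hJ1, one_mul]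
        · have := J.le_opNorm (‖x‖⁻¹ • x)
          rwa [hJ1, hy, mul_one] at this
      · have := hJrad 1
        rwa [one_smul] at this
    · apply Real.sInf_nonneg
      rintro _ ⟨T, _, rfl⟩
      exact numRadius_nonneg T
  · have hid : numRadius (ContinuousLinearMap.id ℝ X) = 1 := by
      apply le_antisymm
      · apply Real.sSup_le _ zero_le_one
        rintro _ ⟨p, hp, rfl⟩
        simp only [ContinuousLinearMap.id_apply]
        rw [hp.2.2, abs_one]
      · have := le_numRadius (ContinuousLinearMap.id ℝ X) hf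
        rw [ContinuousLinearMap.id_apply, hf.2.2, abs_one] at this
        exact this
    have hqid : quotNorm (ContinuousLinearMap.id ℝ X) = 1 := by
      apply le_antisymm
      · have h1 := main (ContinuousLinearMap.id ℝ X)
        rwa [hid] at h1
      · refine le_csInf ⟨_, ⟨0, ?_, rfl⟩⟩ ?_
        · show numRadius (0 : X →L[ℝ] X) = 0
          apply numRadius_eq_zero
          intro p _
          simp
        · rintro _ ⟨S, hS, rfl⟩
          have h1 := le_numRadius S hf
          have hS' : numRadius S = 0 := hS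
          rw [hS'] at h1
          have h2 : f (S (‖x‖⁻¹ • x)) = 0 := abs_eq_zero.1 (le_antisymm h1 (abs_nonneg _))
          have h3 := f.le_opNorm ((ContinuousLinearMap.id ℝ X + S) (‖x‖⁻¹ • x))
          have h4 := (ContinuousLinearMap.id ℝ X + S).le_opNorm (‖x‖⁻¹ • x)
          rw [hy, mul_one] at h4
          have h5 : ‖f‖ = 1 := hf.2.1
          have h6 : f (‖x‖⁻¹ • x) = 1 := hf.2.2
          rw [h5, one_mul, ContinuousLinearMap.add_apply, map_add, ContinuousLinearMap.id_apply,
            h6, h2, add_zero, norm_one] at h3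
          exact h3.trans h4
    apply le_antisymm
    · refine csInf_le ⟨0, ?_⟩ ⟨ContinuousLinearMap.id ℝ X, hqid, hid⟩
      rintro _ ⟨T, _, rfl⟩
      exact numRadius_nonneg T
    · refine le_csInf ⟨_, ⟨ContinuousLinearMap.id ℝ X, hqid, rfl⟩⟩ ?_
      rintro _ ⟨T, hT, rfl⟩
      have hT' : quotNorm T = 1 := hT
      rw [← hT']
      exact main T

end Defs

/-- There is a real Banach space `X` with `n(X) = 0` and `n'(X) = 1` whose norm is not induced by
an inner product. -/
theorem result : ∃ (X : Type) (_ : NormedAddCommGroup X) (_ : NormedSpace ℝ X),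
    CompleteSpace X ∧ numIndex X = 0 ∧ secondIndex X = 1 ∧ ¬ IsHilbert X := by
  obtain ⟨X, hcl, hind, hT⟩ := package
  have hcomplete : CompleteSpace X := hcl.completeSpace_coe
  -- two disjoint indicators
  let e0 : X := indX hind 0 1
  let e1 : X := indX hind 1 1
  have hval : ∀ n, ((e0 : E) n = 1 ∧ (e1 : E) n = 0) ∨ ((e0 : E) n = 0 ∧ (e1 : E) n = 1) := by
    intro n
    by_cases h0 : n ∈ V 0 1
    · left
      refine ⟨ind_apply_of_mem h0, ind_apply_of_notMem fun h1 => parity_disjoint h0 h1⟩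
    · right
      refine ⟨ind_apply_of_notMem h0, ind_apply_of_mem ?_⟩
      have h2 : ¬ n % 2 ^ 1 = 0 % 2 ^ 1 := h0
      show n % 2 ^ 1 = 1 % 2 ^ 1
      omega
  have hone : ∀ x : X, (∀ n, ‖(x : E) n‖ ≤ 1) → (∃ n, ‖(x : E) n‖ = 1) → ‖x‖ = 1 := by
    intro x h1 h2
    obtain ⟨n, hn⟩ := h2
    apply le_antisymm
    · exact (BoundedContinuousFunction.norm_le zero_le_one).2 h1
    · rw [← hn]; exact norm_apply_le (x : E) n
  have h00 : (e0 : E) 0 = 1 ∧ (e1 : E) 0 = 0 :=
    ⟨ind_apply_of_mem rfl, ind_apply_of_notMem fun h1 => parity_disjoint rfl h1⟩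
  have h11 : (e0 : E) 1 = 0 ∧ (e1 : E) 1 = 1 :=
    ⟨ind_apply_of_notMem fun h0 => parity_disjoint h0 rfl, ind_apply_of_mem rfl⟩
  have n0 : ‖e0‖ = 1 := hone e0 (fun n => by rcases hval n with h | h <;> rw [h.1] <;> simp)
    ⟨0, by rw [h00.1]; simp⟩
  have n1 : ‖e1‖ = 1 := hone e1 (fun n => by rcases hval n with h | h <;> rw [h.2] <;> simp)
    ⟨1, by rw [h11.2]; simp⟩
  have na : ‖e0 + e1‖ = 1 := hone _
    (fun n => by
      have e : ((e0 + e1 : X) : E) n = (e0 : E) n + (e1 : E) n := rfl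
      rw [e]
      rcases hval n with h | h <;> rw [h.1, h.2] <;> simp)
    ⟨0, by
      have e : ((e0 + e1 : X) : E) 0 = (e0 : E) 0 + (e1 : E) 0 := rfl
      rw [e, h00.1, h00.2]; simp⟩
  have ns : ‖e0 - e1‖ = 1 := hone _
    (fun n => by
      have e : ((e0 - e1 : X) : E) n = (e0 : E) n - (e1 : E) n := rfl
      rw [e]
      rcases hval n with h | h <;> rw [h.1, h.2] <;> simp)
    ⟨0, by
      have e : ((e0 - e1 : X) : E) 0 = (e0 : E) 0 - (e1 : E) 0 := rfl
      rw [e, h00.1, h00.2]; simp⟩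
  have hnontriv : Nontrivial X := ⟨⟨e0, 0, fun h => by
    rw [h, norm_zero] at n0
    exact zero_ne_one n0⟩⟩
  refine ⟨X, inferInstance, inferInstance, hcomplete, ?_⟩
  have key := criterion (X := X) (Complex.I • ContinuousLinearMap.id ℝ X)
    (fun t x => by
      have e : x + t • (Complex.I • ContinuousLinearMap.id ℝ X) x =
          ((1 : ℂ) + t * Complex.I) • x := by
        rw [add_smul, one_smul, mul_smul]
        rfl
      rw [e, norm_smul]
      congr 1
      rw [Complex.norm_def, Complex.normSq_apply]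
      congr 1
      simp
      ring)
    (fun x => by
      have e : (Complex.I • ContinuousLinearMap.id ℝ X) x = Complex.I • x := rfl
      rw [e, norm_smul, Complex.norm_I, one_mul])
    (fun T => by
      obtain ⟨c, S, hTS, hS⟩ := hT T
      refine ⟨c.re, c.im, S, fun x => ?_, hS⟩
      rw [hTS x]
      congr 1
      have e : (c.re : ℝ) • x + c.im • (Complex.I • ContinuousLinearMap.id ℝ X) x =
          ((c.re : ℂ) + c.im * Complex.I) • x := by
        rw [add_smul, mul_smul]
        rfl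
      rw [e, Complex.re_add_im])
  refine ⟨key.1, key.2, ?_⟩
  rintro ⟨B, hBs, hB⟩
  have ha := hB (e0 + e1)
  have hs := hB (e0 - e1)
  have h0 := hB e0
  have h1 := hB e1
  rw [na] at ha
  rw [ns] at hs
  rw [n0] at h0
  rw [n1] at h1
  simp only [map_add, map_sub, LinearMap.add_apply, LinearMap.sub_apply] at ha hs
  have hsy := hBs e0 e1
  linarith

end Pool.Agent.Results.MP_b2bd43_an.NotHilbert
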